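import Pool.Agent.Lib.MP_0da313_nt.CM.Main
import Pool.Agent.Lib.MP_1e1427_nt.SP.W1
import Pool.Agent.Lib.MP_1e1427_nt.SP.W3
import Pool.Agent.Lib.MP_0da313_nt.GC.P.La
import Pool.Agent.Lib.MP_0da313_nt.GC.P.MA
import Pool.Agent.Lib.MP_0da313_nt.GC.P.ap
import Pool.Agent.Lib.MP_0da313_nt.GC.P.bL
import Pool.Agent.Lib.MP_0da313_nt.GC.P.bk
import Pool.Agent.Lib.MP_0da313_nt.GC.P.ch
import Pool.Agent.Lib.MP_0da313_nt.GC.P.cl
import Pool.Agent.Lib.MP_0da313_nt.GC.P.df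
import Pool.Agent.Lib.MP_0da313_nt.GC.P.ds
import Pool.Agent.Lib.MP_0da313_nt.GC.P.hf
import Pool.Agent.Lib.MP_0da313_nt.GC.P.hh
import Pool.Agent.Lib.MP_0da313_nt.GC.P.hr
import Pool.Agent.Lib.MP_0da313_nt.GC.P.lsv
import Pool.Agent.Lib.MP_0da313_nt.GC.P.mA
import Pool.Agent.Lib.MP_0da313_nt.GC.P.min
import Pool.Agent.Lib.MP_0da313_nt.GC.P.pn
import Pool.Agent.Lib.MP_0da313_nt.GC.P.sw
import Pool.Agent.Lib.MP_0da313_nt.GC.P.t1
import Pool.Agent.Lib.MP_0da313_nt.GC.P.t2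
import Pool.Agent.Lib.MP_0da313_nt.GC.P.tl
import Pool.Agent.Lib.MP_0da313_nt.GC.P.tr
import Pool.Agent.Lib.MP_0da313_nt.GC.P.tt
import Pool.Agent.Lib.MP_0da313_nt.GC.P.tz
import Pool.Agent.Lib.MP_0da313_nt.GC.P.un

set_option autoImplicit false

/-!
Project GC: the assembly. `B.h_un` is the Bombieri-Vinogradov theorem for the exponential sums over primes
in residue classes (small level, uniform in the phase).
-/

namespace Pool.Agent.GC

namespace E

theorem h_ap : R_ap := p_ap SP80.sw1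

theorem h_min : R_min := p_min SP80.sw3

theorem h_t1 : R_t1 := p_t1 h_ap h_min

theorem h_t2 : R_t2 := p_t2 h_ap h_min SP80.sw3

theorem h_La : R_La := p_La h_t1 h_t2 CH.D.p_vau

theorem h_hh : R_hh := p_hh h_t1

theorem h_mA : R_mA := p_mA h_La h_hh

end E

namespace M

theorem h_lsv : R_lsv := p_lsv CM.B.h_bil CM.B.h_dya CM.B.h_tI CH.D.p_vau

theorem h_sw : R_sw := p_sw CH.P.h_PW

theorem h_cl : R_cl := p_cl

theorem h_pn : R_pn := p_pn CH.P.h_PNT h_cl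

theorem h_bk : R_bk := p_bk h_lsv h_sw

theorem h_ch : R_ch := p_ch

theorem h_ds : R_ds := p_ds

theorem h_bL : R_bL := p_bL h_ch h_ds h_bk h_pn

theorem h_tl : R_tl := p_tl

theorem h_tt : R_tt := p_tt

theorem h_hr : R_hr := p_hr h_cl h_tl h_tt

theorem h_hf : R_hf := p_hf h_hr

theorem h_df : R_df := p_df h_bL h_hf

theorem h_tr : R_tr := p_tr

theorem h_tz : R_tz := p_tz h_tr

theorem h_MA : R_MA := p_MA h_tz h_df

end M

namespace B

theorem h_un : R_un := p_un E.h_mA M.h_MA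

end B

end Pool.Agent.GC
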