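import Pool.Agent.Lib.MP_0da313_nt.GC.Defs
import Pool.Agent.Lib.MP_0da313_nt.CM.B

set_option autoImplicit false

/-!
Project GC, section M: the major arcs. `L = log X`, `wd lam X n = tri (lam * log (n / X))` vanishes (for `n ≥ 1`)
unless `X e^(-1/lam) < n < X e^(1/lam)`, so unless `X/3 < n < 3X` (as `lam ≥ 1`), has values in `[0, 1]` and is
unimodal (so its total variation is at most `2`). `mu lam * X = ∫_0^∞ tri (lam log(y/X)) dy`, `mu lam ≤ 2/lam ≤ 2`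
(`CM.M.R_mu`). `CM.B.R_bil`, `CM.B.R_dya`, `CM.B.R_tI` are stated in `CM/B.lean` and proved in `CM/P/bil.lean`,
`dya.lean`, `tI.lean` (theorems `B.h_bil`, `B.h_dya`, `B.h_tI` in `CM/Main.lean`); `CH.P.R_PW`, `CH.P.R_PNT` are
stated in `Lib/MP_d610d0_nt/CH/P/Stm.lean` (theorems `h_PW`, `h_PNT` in `CH/P/Main.lean`); `CH.D.R_vau` is proved in
`CH/D/p_vau.lean`. `primChars R` are the pairs `(r, χ)`, `2 ≤ r ≤ R`, `χ` a primitive character modulo `r`.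
-/

namespace Pool.Agent.GC.M

open Finset Filter
open ArithmeticFunction (vonMangoldt)
open Pool.Agent.MP89da58 (tri primChars kapD)
open Pool.Agent.Lib.MP_0da313_nt (W U)
open Pool.Agent.CH (thP)
open Pool.Agent.CM (wd mu)
open Pool.Agent.SP80 (ex mn)

/-! ### Twisted sums over primes -/

/-- The large sieve bound for all conductors together. -/
def R_lsv : Prop := ∃ C0 : ℕ, ∀ᶠ X : ℝ in atTop, ∀ lam : ℝ, 1 ≤ lam → ∀ R : ℕ,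
  (R : ℝ) ≤ X ^ (1 / 12 : ℝ) →
  ∑ p ∈ primChars R, ‖∑ n ∈ Icc 1 ⌊3 * X⌋₊, (vonMangoldt n : ℂ) * p.2 (n : ZMod p.1) *
    (wd lam X n : ℂ)‖ ≤ X * (Real.log X) ^ C0

/-- [GC lsv] (uses CM bil, dya, tI, CH.D vau) Proof: compare `CM/P/LL.lean` (the proof of `CM.B.R_LL`).
`U = V = ⌊X^(1/5)⌋₊`, `CH.D.R_vau` with `X' = ⌊3X⌋₊` and `w n = χ(n) wd lam X n` for `n ≥ 1`, `w 0 = 0` (zero for
`n ≤ U < X/3` and for `n > 3X`). For `p ∈ primChars R`, by `R_tI` (`p.2 ≠ 1`): the first sum is at most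
`V * 4R log(3X+1)`, the second at most `U V * log(3X) * 3R`; there are at most `R^2` characters
(`card_primChars`), so together at most `14 R^3 X^(2/5) L ≤ X` (`R^3 ≤ X^(1/4)`). Third sum: `CM.B.R_dya` (with
`lam := 1`; the variable `lam` does not occur in it) with
`f p m n = (if U < m then Λ m else 0) * e n * χ(m n) * wd lam X (m n)`; for a block `M ≥ U`, `N ≥ V`, `M N ≤ 3X`
apply `CM.B.R_bil` (with `2M`, `2N` and the coefficients restricted to `(M, 2M]`, `(N, 2N]`, `lam > 0`):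
at most `C sqrt((2M + R^2)(2N + R^2)) sqrt(∑ Λ^2 ∑ τ^2)`, `R^2 ≤ X^(1/6) ≤ M, N`, `∑ Λ^2 ≤ 2M (log 6X)^2`,
`∑ e^2 ≤ 2N (1 + log 2N)^3` (`sum_tau_sq`): at most `C' M N L^3 ≤ X L^4` for large `X`. Total `≤ X + X L^7`:
`C0 = 8`. -/
def S_lsv : Prop := CM.B.R_bil → CM.B.R_dya → CM.B.R_tI → CH.D.R_vau → R_lsv

/-- Small conductors. -/
def R_sw : Prop := ∀ A B : ℕ, ∀ᶠ X : ℝ in atTop, ∀ lam : ℝ, 1 ≤ lam → ∀ (r : ℕ)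
  (χ : DirichletCharacter ℂ r), 2 ≤ r → (r : ℝ) ≤ (Real.log X) ^ B → χ.IsPrimitive →
  ‖∑ n ∈ Icc 1 ⌊3 * X⌋₊, (vonMangoldt n : ℂ) * χ (n : ZMod r) * (wd lam X n : ℂ)‖
    ≤ X / (Real.log X) ^ A

/-- [GC sw] (uses CH.P PW) Proof: compare `CM/P/SCP.lean`. `R_PW` with `A + 1`, `B + 1`, `κ = 1`, `τ = 0`
(`pz (-0) n = 1`: `exp 0`), `M = 3X`: `‖∑_{n ∈ Ioc M1 M2} Λ(n) χ(n)‖ ≤ 3X/(log 3X)^(A+1)` for all `M1, M2 ≤ 3X`. Abel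
summation with `g(n) = wd lam X n` on `1 ≤ n ≤ 3X`, of variation at most `2` (all `lam ≥ 1` at once): total
`≤ 3 * 3X/L^(A+1) ≤ X/L^A`. -/
def S_sw : Prop := CH.P.R_PW → R_sw

/-- The integers in a residue class. -/
def R_cl : Prop := ∀ (lam X : ℝ) (K r : ℕ), 1 ≤ lam → 0 < X → 1 ≤ K →
  |∑ n ∈ (Icc 1 ⌊3 * X⌋₊).filter (fun n => n ≡ r [MOD K]), wd lam X n - mu lam * X / K| ≤ 4

/-- [GC cl] Proof: let `g(y) = tri(lam log(y/X))` for `y > 0`, `g(y) = 0` for `y ≤ 0`: continuous, nondecreasing on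
`(-∞, X]`, nonincreasing on `[X, ∞)`, values in `[0, 1]`, zero for `y ≤ X/3` and `y ≥ 3X`. For a nondecreasing
function and points `y_j = r' + K j`: `g(y_j) ≤ (1/K) ∫_{y_j}^{y_(j+1)} g ≤ g(y_(j+1))`, and the reverse for a nonincreasing
function; so `|∑_j g(y_j) - (1/K) ∫ g| ≤ 2` (or `≤ 4`). `∫ g = X ∫ tri(lam u) e^u du = X 2 lam (cosh(1/lam) - 1)`
`= mu lam * X`. (Compare `CM/P/m1.lean`, where this is done for `K = 1`.) -/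
def S_cl : Prop := R_cl

/-- The principal character. -/
def R_pn : Prop := ∀ A : ℕ, ∀ᶠ X : ℝ in atTop, ∀ lam : ℝ, 1 ≤ lam →
  |∑ n ∈ Icc 1 ⌊3 * X⌋₊, vonMangoldt n * wd lam X n - mu lam * X| ≤ X / (Real.log X) ^ A

/-- [GC pn] (uses CH.P PNT, cl) Proof: `R_cl` with `K = 1` for `∑ wd`; `∑ (Λ(n) - 1) wd lam X n`: Abel summation with
`E(M) = ψ(M) - M`, `|E(M)| ≤ C M/(log M)^(A+1)` (`R_PNT`) for `X/3 - 1 ≤ M ≤ 3X` (`wd = 0` outside), times the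
variation `2`: `≤ C' X/L^(A+1)`. Compare `CM/P/m1.lean`. -/
def S_pn : Prop := CH.P.R_PNT → R_cl → R_pn

/-- All conductors. -/
def R_bk : Prop := ∀ A : ℕ, ∀ᶠ X : ℝ in atTop, ∀ lam : ℝ, 1 ≤ lam → ∀ R : ℕ,
  (R : ℝ) ≤ X ^ (1 / 12 : ℝ) →
  ∑ r ∈ Icc 2 R, pL lam X r / Real.sqrt r ≤ X / (Real.log X) ^ A

/-- [GC bk] (uses lsv, sw) Proof: `C0` from `R_lsv`, `B = 2 (A + C0 + 2)`, `R0 = ⌈L^B⌉₊`. For `2 ≤ r ≤ R0`: `R_sw` with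
`A' = A + 3B + 2`, `B + 1` (`R0 ≤ L^(B+1)`): each of the at most `r` characters gives at most `X/L^A'`, so these `r`
contribute at most `(R0 + 1)^2 X/L^A' ≤ X/(2L^A)`. For `r > R0`: blocks `2^j R0 < r ≤ 2^(j+1) R0` (cut at `R`):
`∑_{r ≤ R'} pL lam X r = ∑_{p ∈ primChars R'} ‖..‖ ≤ X L^C0` for `R' ≤ R` (`primChars` is a sigma set, see
`CM/P/con.lean` = `R_con` or the end of `Large.lean` in Lib/MP_89da58_nt), so the block contributes at most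
`(2^j R0)^(-1/2) X L^C0`, in total `≤ 4 R0^(-1/2) X L^C0 ≤ 4 X L^(C0 - B/2) ≤ X/(2L^A)`. (`pL ≥ 0`.) -/
def S_bk : Prop := R_lsv → R_sw → R_bk

/-! ### From characters to functions modulo `K` -/

/-- Expansion of a function modulo `K`, supported on the units, in characters. -/
def R_ch : Prop := ∀ (K : ℕ) [NeZero K] (f : ZMod K → ℂ) (F : ℝ), (∀ x, ¬ IsUnit x → f x = 0) →
  ∑ x : ZMod K, ‖f x‖ ≤ F → ∀ (S : Finset ℕ) (g : ℕ → ℂ),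
  ‖∑ n ∈ S, g n * f (n : ZMod K) - 1 / (Nat.totient K : ℂ) * (∑ x : ZMod K, f x) *
      ∑ n ∈ S.filter (fun n => n.Coprime K), g n‖
    ≤ F / (Nat.totient K : ℝ) * (∑ r ∈ K.divisors.filter (fun r => 2 ≤ r),
        ∑ χ : DirichletCharacter ℂ r, Set.indicator {χ | χ.IsPrimitive}
          (fun χ => ‖∑ n ∈ S, g n * χ (n : ZMod r)‖) χ
      + K * ∑ n ∈ S.filter (fun n => ¬ n.Coprime K), ‖g n‖)

/-- [GC ch] Proof: orthogonality (`DirichletCharacter.sum_char_inv_mul_char_eq`): for a unit `n`,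
`f n = ∑_χ c χ * χ n`, `c χ = (1/φ(K)) ∑_x χ⁻¹(x) f(x)`, `‖c χ‖ ≤ F/φ(K)`; if `n` is not a unit both sides are `0`.
The character `χ = 1` gives the subtracted term. A character `χ ≠ 1` is induced by a unique primitive `χ'`
modulo its conductor `r`, `r ∣ K`, `r ≥ 2`, and `χ n = χ' n` if `n` is coprime to `K` (else `0`), so
`‖∑_S g χ‖ ≤ ‖∑_S g χ'‖ + ∑_{n ∈ S, (n,K) ≠ 1} ‖g n‖`; there are `φ(K) ≤ K` characters, and different `χ` have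
different `(r, χ')`. Compare `CM/P/one.lean` (the proof of `CM.B.R_one`) and `BV/BvL.lean`. -/
def S_ch : Prop := R_ch

/-- The sum over the moduli. -/
def R_ds : Prop := ∀ P : ℕ → ℝ, (∀ r, 0 ≤ P r) → ∀ q D : ℕ, 1 ≤ q → 1 ≤ D →
  ∑ d ∈ Icc 1 D, 1 / (d : ℝ) * ∑ r ∈ (d ^ 2 * q).divisors.filter (fun r => 2 ≤ r), P r
    ≤ (1 + Real.log D) * Real.sqrt q * ∑ r ∈ Icc 2 (D ^ 2 * q), P r / Real.sqrt r

/-- [GC ds] Proof: exchange the sums; it suffices to show for `r ≥ 2`, `r ≤ D^2 q`, that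
`∑_{d ≤ D, r ∣ d^2 q} 1/d ≤ (1 + log D) sqrt(q/r)`. Let `r'` be the least `d ≥ 1` with `r ∣ d^2 q` (`d = r` is one). If
`r ∣ d^2 q` then `r ∣ gcd(d^2 q, r'^2 q) = gcd(d, r')^2 q` (`Nat.gcd_mul_right`, `Nat.pow_gcd_pow` or
`Nat.Coprime.pow`), so `gcd(d, r') = r'` by minimality, `r' ∣ d`. Hence the sum is at most
`∑_{d' ≤ D/r'} 1/(r' d') ≤ (1/r')(1 + log D)`, and `r ≤ r'^2 q` (as `r ∣ r'^2 q > 0`), `1/r' ≤ sqrt(q/r)`. -/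
def S_ds : Prop := R_ds

/-- The primes, on average over the moduli. -/
def R_bL : Prop := ∀ A B : ℕ, ∀ᶠ X : ℝ in atTop, ∀ lam : ℝ, 1 ≤ lam → ∀ (a q : ℕ → ℕ) (b : ℕ → ℤ),
  (∀ d, (a d).Coprime d) → (∀ d, 1 ≤ q d ∧ (q d : ℝ) ≤ (Real.log X) ^ B) →
  ∑ d ∈ Icc 1 ⌊X ^ (1 / 49 : ℝ)⌋₊, ‖∑ t ∈ (Icc 1 ⌊3 * X⌋₊).filter (fun t => t ≡ a d [MOD d]),
      (vonMangoldt t : ℂ) * ex ((b d : ℝ) * t / ((d : ℝ) ^ 2 * q d)) * (wd lam X t : ℂ) -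
      ((mu lam * X : ℝ) : ℂ) / (Nat.totient (d ^ 2 * q d) : ℂ) * GG d (q d) (a d) (b d)‖
    ≤ X / (Real.log X) ^ A

/-- [GC bL] (uses ch, ds, bk, pn) Proof: fix `d ≤ X^(1/49)`, `q = q d`, `K = d^2 q`, `f x = ex(b x/K)` for the units `x` of
`ZMod K` with `x ≡ a` modulo `d` (well defined: `d ∣ K` and `ex` has period `1`), `f x = 0` otherwise; `F = K/d` (number of
classes modulo `K` in the class `a` modulo `d`). `∑_x f x = GG d q a b`. `g n = Λ(n) wd lam X n`, `S = Icc 1 ⌊3X⌋₊`. The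
`t` not coprime to `K` contribute at most `∑_{t ≤ 3X, (t,K) ≠ 1} Λ(t) ≤ (log K/log 2)(log 3X) ≤ 4 L^2` (for each prime
`p ∣ K` the powers of `p`) to each of the sums. By `R_ch`, `R_pn` (with `A' = A + 5`), `|GG| ≤ K/d`,
`K/φ(K) ≤ 4 L` for large `X` (any bound `C L^2` will do; `inv_totient_le` in `Lib/MP_89da58_nt/Bv.lean`): the term of
`d` is at most `4 L^2 + (4L/d)(X/L^A' + 4 L^2) + (4L/d)(∑_{r ∣ K, r ≥ 2} pL lam X r + 4 K L^2)`; `K/d = d q` is small.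
Sum over `d`: `∑ 1/d ≤ 1 + L`; `∑_d (1/d) ∑_{r ∣ d^2 q_d} pL ≤ ∑_{q ≤ L^B} ∑_d (1/d) ∑_{r ∣ d^2 q, r ≥ 2} pL` and `R_ds`
with `D = ⌊X^(1/49)⌋₊`, `D^2 q ≤ X^(1/12)`, `R_bk` with `A'' = A + 2B + 6`:
`≤ L^B (1 + L) L^(B/2) X/L^A''`. -/
def S_bL : Prop := R_ch → R_ds → R_bk → R_pn → R_bL

/-! ### The model -/

/-- Truncation errors. -/
def R_tl : Prop := ∀ c : ℕ, 1 ≤ c → ∃ K0 : ℕ, ∀ᶠ X : ℝ in atTop, ∀ w k : ℕ, Pm X (1 / 50) K0 w k →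
  (∀ (ρ : ℕ → ℝ) (P : Finset ℕ) (j : ℕ), P ⊆ prs w → (∀ p ∈ P, 0 ≤ ρ p ∧ ρ p ≤ c / p) → (k : ℝ) / 2 ≤ j →
    |U ρ P j - W ρ P| ≤ Real.exp (-(k : ℝ) / 2)) ∧
  (∏ p ∈ prs w, (1 + (c : ℝ) / p) ≤ (Real.log X) ^ (c + 1)) ∧ (kapD w)⁻¹ ≤ 1000 * Real.log X ∧
  (∀ P : Finset ℕ, P ⊆ prs w → ((P.powerset.filter (fun S => S.card ≤ k)).card : ℝ) ≤ X ^ (1 / 25 : ℝ))

/-- [GC tl] Proof: `w ≤ w^(k+1) ≤ X^(1/50)`. `s = ∑_{p ≤ w} 1/p ≤ log log w + C1 ≤ log L + C1` (`CH.P.R_mer2`, theorem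
`h_mer2` or `p_mer2` in `Lib/MP_d610d0_nt/CH/P`, with `a = 2`; or any other bound of this kind, e.g. from
`mertens`/`kapD`: `∑ 1/p ≤ -∑ log(1-1/p) = log (kapD w)⁻¹ ≤ log(1000 log w)`). `W ρ P = ∑_i (-1)^i E ρ P i`, so
`|U ρ P j - W ρ P| ≤ ∑_{i > j} E ρ P i` and `i! E ρ P i ≤ (∑ ρ)^i ≤ (c s)^i` (`E_le` in `Lib/MP_0da313_nt/Combi.lean`),
`i! ≥ (i/e)^i`, so `E ρ P i ≤ (e c s/i)^i ≤ e^(-2 i)` as soon as `i ≥ e^3 c s`; for `i > k/2` this holds if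
`K0 ≥ 100 c` and `X` is large (`k ≥ K0 log L`). Sum: `∑_{i > k/2} e^(-2i) ≤ 2 e^(-k)` up to the first term; at most
`e^(-k/2)` for large `k`. Second claim: `∏ (1 + c/p) ≤ exp(c s) ≤ (e^C1 L)^c`. Third: `mertens` (`MT/Mertens.lean`) and
`log w ≤ L`. Fourth: `S ↦ ∏ S` is injective with values in `[1, w^k]`, `w^k ≤ X^(1/50)`. -/
def S_tl : Prop := R_tl

/-- Euler's function. -/
def R_tt : Prop := ∀ (w K : ℕ), 2 ≤ w → 1 ≤ K →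
  |1 / (Nat.totient K : ℝ) - (kapD w)⁻¹ * W (fun p => 1 / (p : ℝ)) ((prs w).filter (fun p => ¬ p ∣ K)) / K|
    ≤ 4 * (1 + Real.log K) ^ 2 / (K * w)

/-- [GC tt] Proof: this is `S_tot` of `Lib/MP_8a4e59_co/P/StmQ.lean` (proved in `P/Q04.lean`; import it, or copy the
proof): `(kapD w)⁻¹ W(..) = ∏_{p ≤ w, p ∣ K} (1-1/p)⁻¹` and `K/φ(K) = ∏_{p ∣ K} (1-1/p)⁻¹`, so
`(kapD w)⁻¹ W(..)/K = (1/φ(K)) ∏_{p ∣ K, p > w} (1 - 1/p)` and the difference is between `0` and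
`(1/φ(K)) ∑_{p ∣ K, p > w} 1/p ≤ (1/φ(K)) ω(K)/w`; `K/φ(K) ≤ ω(K) + 1`, `ω(K) ≤ log K/log 2`. -/
def S_tt : Prop := R_tt

/-- The model in a residue class. -/
def R_hr : Prop := ∀ A B : ℕ, ∃ K0 : ℕ, ∀ᶠ X : ℝ in atTop, ∀ w k : ℕ, Pm X (1 / 50) K0 w k →
  ∀ lam : ℝ, 1 ≤ lam → ∀ d q r : ℕ, 1 ≤ d → (d : ℝ) ≤ X ^ (1 / 49 : ℝ) → 1 ≤ q →
  (q : ℝ) ≤ (Real.log X) ^ B → r.Coprime d →
  |∑ t ∈ (Icc 1 ⌊3 * X⌋₊).filter (fun t => t ≡ r [MOD d ^ 2 * q]), HH w k t * wd lam X t -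
      (if r.Coprime (d ^ 2 * q) then mu lam * X / (Nat.totient (d ^ 2 * q) : ℝ) else 0)|
    ≤ X / ((d : ℝ) ^ 2 * q) / (Real.log X) ^ A

/-- [GC hr] (uses cl, tl, tt) Proof: `K = d^2 q`, `P1` the set of the primes `p ≤ w` with `p ∣ K`, `p ∣ r`, `P2` the
set of the primes `p ≤ w` with `p ∤ K`. For `t ≡ r` modulo `K` and `p ∣ K`: `p ∣ t` iff `p ∣ r`. So
`U (dv t) (prs w) k = ∑_{S1 ⊆ P1} (-1)^|S1| ∑_{S2 ⊆ P2, |S2| ≤ k - |S1|} (-1)^|S2| [∏ S2 ∣ t]` (the sets `S` containing a prime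
dividing `K` but not `r` contribute `0`; terms with `|S1| > k` are absent). The primes of `P1` divide `q` (`r` is coprime to
`d`), so `2^|P1| ≤ q ≤ L^B` and `|P1| ≤ 2 B log L ≤ k/2` if `K0 ≥ 4B + 4`. For fixed `S1, S2` the conditions `t ≡ r` modulo
`K`, `∏ S2 ∣ t` are one residue class modulo `K ∏ S2` (Chinese remainder theorem), and `R_cl` gives
`mu lam X/(K ∏ S2) + O(4)`. So the sum over `t` is `κ⁻¹ ∑_{S1} (-1)^|S1| ((mu lam X/K) U(1/p, P2, k - |S1|) + O(4 #S2))`,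
`κ = kapD w`. `R_tl` (`c = 1`): `|U(1/p, P2, j) - W(1/p, P2)| ≤ e^(-k/2)` (`j = k - |S1| ≥ k/2`), `#S2 ≤ X^(1/25)`. Total error
`≤ 1000 L * L^B ((2X/K) e^(-k/2) + 4 X^(1/25)) ≤ (X/K)/(4 L^A)`: `e^(-k/2) ≤ L^(-K0/2)`, `K0 ≥ 2A + 2B + 8`;
`K ≤ X^(2/49) L^B ≤ X^(1/10)`. Main term: `∑_{S1 ⊆ P1} (-1)^|S1|` is `1` if `P1` is empty and `0` otherwise. `P1 = ∅` iff `r`
is coprime to `K`: a prime `p` dividing `r` and `K` divides `q`, so `p ≤ q ≤ L^B ≤ w`. In that case use `R_tt`: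
`|κ⁻¹ W(1/p, P2) mu lam X/K - mu lam X/φ(K)| ≤ 2X * 4 (1 + log K)^2/(K w) ≤ (X/K) L^(4 - K0)`. -/
def S_hr : Prop := R_cl → R_tl → R_tt → R_hr

/-- The model with an additive character. -/
def R_hf : Prop := ∀ A B : ℕ, ∃ K0 : ℕ, ∀ᶠ X : ℝ in atTop, ∀ w k : ℕ, Pm X (1 / 50) K0 w k →
  ∀ lam : ℝ, 1 ≤ lam → ∀ (d q a : ℕ) (b : ℤ), 1 ≤ d → (d : ℝ) ≤ X ^ (1 / 49 : ℝ) → 1 ≤ q →
  (q : ℝ) ≤ (Real.log X) ^ B → a.Coprime d →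
  ‖∑ t ∈ (Icc 1 ⌊3 * X⌋₊).filter (fun t => t ≡ a [MOD d]),
      (HH w k t : ℂ) * ex ((b : ℝ) * t / ((d : ℝ) ^ 2 * q)) * (wd lam X t : ℂ) -
      ((mu lam * X : ℝ) : ℂ) / (Nat.totient (d ^ 2 * q) : ℂ) * GG d q a b‖
    ≤ X / d / (Real.log X) ^ A

/-- [GC hf] (uses hr) Proof: `K = d^2 q`. Split the `t` into the classes `r ∈ range K`, `r ≡ a` modulo `d` (there are
`K/d` of them, each is coprime to `d`), on which `ex(b t/K) = ex(b r/K)`; `R_hr` (same `A`, `B`) for each: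
total error `(K/d) (X/K)/L^A`, and the main terms add up to `(mu lam X/φ(K)) GG d q a b`. -/
def S_hf : Prop := R_hr → R_hf

/-- The difference of the primes and the model, on average over the moduli. -/
def R_df : Prop := ∀ A B : ℕ, ∃ K0 : ℕ, ∀ᶠ X : ℝ in atTop, ∀ w k : ℕ, Pm X (1 / 50) K0 w k →
  ∀ lam : ℝ, 1 ≤ lam → ∀ (a q : ℕ → ℕ) (b : ℕ → ℤ),
  (∀ d, (a d).Coprime d) → (∀ d, 1 ≤ q d ∧ (q d : ℝ) ≤ (Real.log X) ^ B) →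
  ∑ d ∈ Icc 1 ⌊X ^ (1 / 49 : ℝ)⌋₊, ‖∑ t ∈ (Icc 1 ⌊3 * X⌋₊).filter (fun t => t ≡ a d [MOD d]),
      ((thP t - HH w k t : ℝ) : ℂ) * ex ((b d : ℝ) * t / ((d : ℝ) ^ 2 * q d)) * (wd lam X t : ℂ)‖
    ≤ X / (Real.log X) ^ A

/-- [GC df] (uses bL, hf) Proof: `thP = Λ - (Λ - thP)`, `∑_{t ≤ 3X} (Λ - thP) ≤ C √X log X` (Chebyshev functions in
Mathlib), times the number `X^(1/49)` of the `d`. `R_bL` with `A + 1`, and `R_hf` with `A + 2` (`∑ 1/d ≤ 1 + L`); the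
main terms cancel. -/
def S_df : Prop := R_bL → R_hf → R_df

/-! ### The exponential sums -/

/-- The trivial bound. -/
def R_tr : Prop := ∀ᶠ X : ℝ in atTop, ∀ w k : ℕ, Pm X (1 / 100) 1 w k → ∀ d a : ℕ, 1 ≤ d →
  (d : ℝ) ≤ X ^ (1 / 50 : ℝ) → a.Coprime d →
  ∑ t ∈ (Icc 1 ⌊2 * X⌋₊).filter (fun t => t ≡ a [MOD d]), |thP t - HH w k t| ≤ X / d * (Real.log X) ^ 4

/-- [GC tr] Proof: `thP t ≤ log(2X)`, the number of the `t` is at most `2X/d + 1`. `|HH w k t| ≤ κ⁻¹ ∑_S [∏ S ∣ t]` over the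
`S ⊆ prs w` with `|S| ≤ k` (`κ = kapD w`, `κ⁻¹ ≤ 1000 L` by `mertens`, `w ≥ log X ≥ 2`, `w ≤ X`). For `a` coprime to `d` only the
`S` with `∏ S` coprime to `d` count, and the number of the `t ≤ 2X` with `t ≡ a` modulo `d`, `∏ S ∣ t` is at most
`2X/(d ∏ S) + 1`. `∑_S 1/∏ S ≤ ∏_{p ≤ w} (1 + 1/p) ≤ κ⁻¹`, and the number of the `S` is at most `w^k ≤ X^(1/100)`
(`S ↦ ∏ S` is injective). Total `≤ (2X/d + 1) 2L + 1000 L ((2X/d) 1000 L + X^(1/100)) ≤ (X/d) L^4`. -/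
def S_tr : Prop := R_tr

/-- From the exponential sum near `b/(d^2 q)` to narrow windows. `X_j = exp(j/lam)`. -/
def R_tz : Prop := ∀ A B : ℕ, ∃ E : ℕ, ∀ᶠ X : ℝ in atTop, ∀ w k : ℕ, Pm X (1 / 100) 1 w k →
  ∀ (d a q : ℕ) (b : ℤ) (θ : ℝ), 1 ≤ d → (d : ℝ) ≤ X ^ (1 / 50 : ℝ) → a.Coprime d → 1 ≤ q →
  |θ - b / ((d : ℝ) ^ 2 * q)| ≤ (Real.log X) ^ B / X → ∀ lam : ℝ, lam = (Real.log X) ^ E →
  ‖ES w k X d a θ‖ ≤ ∑ j ∈ Icc ⌈lam * Real.log (9 / 10 * X)⌉₊ ⌊lam * Real.log (11 / 10 * X)⌋₊,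
    ‖∑ t ∈ (Icc 1 ⌊3 * Real.exp (j / lam)⌋₊).filter (fun t => t ≡ a [MOD d]),
      ((thP t - HH w k t : ℝ) : ℂ) * ex ((b : ℝ) * t / ((d : ℝ) ^ 2 * q)) *
        (wd lam (Real.exp (j / lam)) t : ℂ)‖ + X / d / (Real.log X) ^ A

/-- [GC tz] (uses tr) Proof: `E = A + B + 6`, `lam = L^E`, `X_j = exp(j/lam)`, `J` the set of the `j`. For `t ≥ 1`,
`wd lam X_j t = tri(lam log t - j)`, and `∑_{j ∈ ℤ} tri(y - j) = 1` for all real `y`. Let `β = θ - b/(d^2 q)`,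
`g(y) = tz(y/X) ex(β y)`, so `tz(t/X) ex(θ t) = ex(b t/(d^2 q)) g(t)`. `|g(y) - g(y')| ≤ (100/X + 2π|β|) |y - y'|`, and if
`wd lam X_j t ≠ 0` then `|t - X_j| ≤ X_j (e^(1/lam) - 1) ≤ 3X/lam` for `j ∈ J`. For `1 ≤ t ≤ 2X`:
`|g(t) - ∑_{j ∈ J} g(X_j) wd lam X_j t| ≤ (100 + 2π L^B) 3/lam ≤ L^(B+1)/lam`: if `tz(t/X) ≠ 0` then `0.98 X ≤ t ≤ 1.02 X`, and all
`j ∈ ℤ` with `wd lam X_j t ≠ 0` belong to `J` (lam large), so `∑_{j ∈ J} wd lam X_j t = 1`; if `tz(t/X) = 0` then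
`g(t) = 0` and every term with `wd lam X_j t ≠ 0` has `|g(X_j)| = |g(X_j) - g(t)|` (`∑_{j ∈ J} wd ≤ 1`). Multiply by
`(thP t - HH w k t) ex(b t/(d^2 q))` and sum over `t ≤ 2X`, `t ≡ a`: the error is at most `L^(B+1-E) (X/d) L^4` by `R_tr`,
and `|g(X_j)| ≤ 1`. For `j ∈ J` the windows are supported in `(1, 2X]` and `(1, 3X_j]` (`X_j ≤ 1.1 X`, `lam` large), so the
ranges `t ≤ 2X` and `t ≤ 3X_j` give the same sum. -/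
def S_tz : Prop := R_tr → R_tz

/-- The major arcs. -/
def R_MA : Prop := ∀ A B : ℕ, ∃ K0 : ℕ, ∀ᶠ X : ℝ in atTop, ∀ w k : ℕ, Pm X (1 / 100) K0 w k →
  ∀ (a q : ℕ → ℕ) (b : ℕ → ℤ) (θ : ℕ → ℝ) (S : Finset ℕ), S ⊆ Icc 1 ⌊X ^ (1 / 50 : ℝ)⌋₊ →
  (∀ d, (a d).Coprime d) → (∀ d ∈ S, 1 ≤ q d ∧ (q d : ℝ) ≤ (Real.log X) ^ B ∧
    |θ d - b d / ((d : ℝ) ^ 2 * q d)| ≤ (Real.log X) ^ B / X) →
  ∑ d ∈ S, ‖ES w k X d (a d) (θ d)‖ ≤ X / (Real.log X) ^ A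

/-- [GC MA] (uses tz, df) Proof: `E` from `R_tz` for `A + 2`, `B`; `lam = L^E ≥ 1`. Put `q d = 1`, `b d = 0` for `d ∉ S` (all terms of
the sum over `d` are `≥ 0`). For every `j ∈ J`, `X_j = exp(j/lam) ∈ [0.9 X, 1.1 X]`: `R_df` at `X_j` with
`A' = A + E + 3`, `B + 1` and its `K0'`: `(log X)^B ≤ (log X_j)^(B+1)`, `X^(1/50) ≤ X_j^(1/49)`, and
`Pm X (1/100) K0 w k` implies `Pm X_j (1/50) K0' w k` for `K0 = K0' + 1` (`(log X_j)^K0' ≤ (log X)^K0`,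
`K0' log log X_j ≤ K0 log log X`, `X^(1/100) ≤ X_j^(1/50)`) and also `Pm X (1/100) 1 w k`. (The eventual statement is
used at all `X_j ≥ 0.9 X`.) `|J| ≤ lam + 1 ≤ 2 L^E`. Total
`≤ 2 L^E * 1.1 X/(log X_j)^A' + (1 + L) X/L^(A+2)`. -/
def S_MA : Prop := R_tz → R_df → R_MA

end Pool.Agent.GC.M
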