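import Pool.Agent.Lib.MP_0da313_nt.GC.E
import Pool.Agent.Lib.MP_0da313_nt.GC.M

set_option autoImplicit false

/-!
Project GC, section B: the Bombieri-Vinogradov theorem for the exponential sums.
-/

namespace Pool.Agent.GC.B

open Finset Filter

/-- Without weights. -/
def R_un : Prop := ∀ A : ℕ, ∃ K0 : ℕ, ∀ᶠ X : ℝ in atTop, ∀ w k : ℕ, Pm X (1 / 100) K0 w k →
  ∀ (a : ℕ → ℕ) (θ : ℕ → ℝ), (∀ d, (a d).Coprime d) →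
  ∑ d ∈ Icc 1 ⌊X ^ (1 / 50 : ℝ)⌋₊, ‖ES w k X d (a d) (θ d)‖ ≤ X / (Real.log X) ^ A

/-- [GC un] (uses E mA, M MA) Proof: `B` from `E.R_mA` for `A + 2`; `K0 ≥ 1` from `M.R_MA` for `A + 1`, `B` (enlarging `K0` is
allowed: `Pm X ε K0 w k` implies `Pm X ε K1 w k` for `K1 ≤ K0`, as `log X ≥ 1`, `log log X ≥ 0`). For each
`d ≤ X^(1/50)` let `n = ⌊X/(d^2 L^B)⌋₊ ≥ 1`. By Dirichlet (`Real.exists_rat_abs_sub_le_and_den_le`) there is a rational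
`h/q` in lowest terms with `1 ≤ q ≤ n`, `|d^2 θ d - h/q| ≤ 1/((n+1) q)`, which is at most `1/q^2`, and `n + 1 ≥ X/(d^2 L^B)`.
If `q ≥ L^B`: `E.R_mA` (`q ≤ n ≤ X/(d^2 L^B)`) gives `≤ (X/d)/L^(A+2)`; sum over `d`: `∑ 1/d ≤ 1 + L`. If `q < L^B`:
`|θ d - h/(d^2 q)| ≤ 1/(d^2 (n+1) q) ≤ L^B/(X q) ≤ L^B/X`; these `d` form the set `S` of `M.R_MA`. -/
def S_un : Prop := E.R_mA → M.R_MA → R_un

/-- Final form, with weights and with the maximum over `a` and `θ`. -/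
def R_bv : Prop := ∀ A b : ℕ, ∃ K0 : ℕ, ∀ᶠ X : ℝ in atTop, ∀ w k : ℕ, Pm X (1 / 100) K0 w k →
  ∃ E : ℕ → ℝ, (∀ d, 0 ≤ E d) ∧
  (∀ (d a : ℕ) (θ : ℝ), 1 ≤ d → (d : ℝ) ≤ X ^ (1 / 50 : ℝ) → a.Coprime d → ‖ES w k X d a θ‖ ≤ E d) ∧
  ∑ d ∈ (Icc 1 ⌊X ^ (1 / 50 : ℝ)⌋₊).filter Squarefree, (b : ℝ) ^ d.primeFactors.card * E d
    ≤ X / (Real.log X) ^ A

/-- [GC bv] (uses un, M tr) Proof: let `E d` be the supremum of `‖ES w k X d a θ‖` over the `a` coprime to `d` and the real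
`θ` (for `1 ≤ d ≤ X^(1/50)`, else `0`); it is finite and at most `(X/d) L^4` by `M.R_tr` (`|tz| ≤ 1`, `|ex| = 1`). Choose
`a d`, `θ d` with `‖ES w k X d (a d) (θ d)‖ ≥ E d/2` (if `E d = 0` anything; `a d = 1`). `R_un` for
`A' = 2A + b^2 + 6`: `∑ E d ≤ 2X/L^A'`. Cauchy: `∑ b^ω(d) E d ≤ (∑ b^(2ω(d)) E d)^(1/2) (∑ E d)^(1/2)`, and
`∑ b^(2ω(d)) E d ≤ X L^4 ∑_{d ≤ X squarefree} (b^2)^ω(d)/d ≤ X L^4 (1 + L)^(b^2)` (as in `bv_weightedL`,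
`Lib/MP_0da313_nt/BV/BvWL.lean`, or `CM/P/bv.lean`). (`b = 0`: only `d = 1` matters; the same estimate with
`max b 1` in place of `b` covers this.) -/
def S_bv : Prop := R_un → M.R_tr → R_bv

end Pool.Agent.GC.B
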