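import Pool.Agent.Lib.MP_0da313_nt.CM.F
import Pool.Agent.Lib.MP_1e1427_nt.SP.Stm

set_option autoImplicit false

/-!
Project GC (GoldbachCompanions on the line `x + y = n`): common definitions.

`thP t = log t` on the primes (else `0`), `wd lam X t = tri (lam * log (t / X))`, `mu lam * X` is the
integral of this window, `kapD w = ∏_{p ≤ w} (1 - 1/p)`, `SP80.ex x = exp(2 π i x)`,
`SP80.mn H x = min (H, 1/(2 ‖x‖))`.
-/

namespace Pool.Agent.GC

open Finset Filter Polynomial
open Pool.Agent.MP89da58 (tri primChars kapD)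
open Pool.Agent.BVall (om rhoW PK lev RepB Dens FK)
open Pool.Agent.Lib.MP_0da313_nt (W U)
open Pool.Agent.CH (thP)
open Pool.Agent.CM (wd mu er sA sT Fam)
open Pool.Agent.SP80 (ex mn)

/-- The primes `≤ w`. -/
def prs (w : ℕ) : Finset ℕ := (Icc 1 w).filter Nat.Prime

/-- The indicator of `p ∣ t`. -/
noncomputable def dv (t p : ℕ) : ℝ := if p ∣ t then 1 else 0

/-- The model of the primes: `∏_{p ≤ w} (1 - 1/p)⁻¹` times the truncated sieve
`∑_{S, |S| ≤ k} (-1)^|S| [∏ S ∣ t]`, `S` running over the sets of primes `≤ w`. -/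
noncomputable def HH (w k t : ℕ) : ℝ := (kapD w)⁻¹ * U (dv t) (prs w) k

/-- The parameters of the model at `X`. -/
structure Pm (X ε : ℝ) (K w k : ℕ) : Prop where
  w_ge : (Real.log X) ^ K ≤ w
  k_ge : K * Real.log (Real.log X) ≤ k
  even : Even k
  wk : (w : ℝ) ^ (k + 1) ≤ X ^ ε

/-- The trapezoid: `1` for `|y - 1| ≤ 1/100`, `0` for `|y - 1| ≥ 1/50`. -/
noncomputable def tz (y : ℝ) : ℝ := min 1 (max 0 (2 - 100 * |y - 1|))

/-- The exponential sum over the class `a` modulo `d`. -/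
noncomputable def ES (w k : ℕ) (X : ℝ) (d a : ℕ) (θ : ℝ) : ℂ :=
  ∑ t ∈ (Icc 1 ⌊2 * X⌋₊).filter (fun t => t ≡ a [MOD d]),
    (((thP t - HH w k t) * tz (t / X) : ℝ) : ℂ) * ex (θ * t)

/-- The sum of the absolute values of the twisted sums over the primitive characters modulo `r`. -/
noncomputable def pL (lam X : ℝ) (r : ℕ) : ℝ :=
  ∑ χ : DirichletCharacter ℂ r, Set.indicator {χ | χ.IsPrimitive} (fun χ =>
    ‖∑ n ∈ Icc 1 ⌊3 * X⌋₊, (ArithmeticFunction.vonMangoldt n : ℂ) * χ (n : ZMod r) *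
      (wd lam X n : ℂ)‖) χ

/-- The local sum for the modulus `d^2 q`. -/
noncomputable def GG (d q a : ℕ) (b : ℤ) : ℂ :=
  ∑ r ∈ (range (d ^ 2 * q)).filter (fun r => r.Coprime (d ^ 2 * q) ∧ r ≡ a [MOD d]),
    ex ((b : ℝ) * r / ((d : ℝ) ^ 2 * q))

/-! ### Families

`F : Fam ι D` (CM/Defs.lean) contains all members; the two members which are to be prime are
`F.L n none x` and `F.L n (some i) x`, `F.G n` is the product of all members. -/

variable {ι : Type} [Fintype ι] [DecidableEq ι] {D : ℕ}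

/-- The product of the members is a polynomial in `x` and `n`. -/
def Per (F : Fam ι D) : Prop := ∀ n n' : ℕ, F.N0 ≤ n → F.N0 ≤ n' → ∀ (p : ℕ) (x x' : ℤ),
  (p : ℤ) ∣ (n : ℤ) - n' → (p : ℤ) ∣ x - x' →
  ((p : ℤ) ∣ (F.G n).eval x ↔ (p : ℤ) ∣ (F.G n').eval x')

/-- The linear parts of the two members are not proportional. -/
def Dt (F : Fam ι D) (i : ι) : Prop := F.u none * F.b (some i) - F.u (some i) * F.b none ≠ 0

/-- The condition at the prime `p`: `p` divides the product, but not the two members. -/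
def Qg (F : Fam ι D) (i : ι) (n p : ℕ) (x : ℤ) : Prop :=
  (p : ℤ) ∣ (F.G n).eval x ∧ ¬ (p : ℤ) ∣ F.L n none x ∧ ¬ (p : ℤ) ∣ F.L n (some i) x

/-- The condition at the prime `p`: `p` divides the second member, but not the first one. -/
def Qt (F : Fam ι D) (i : ι) (n p : ℕ) (x : ℤ) : Prop :=
  (p : ℤ) ∣ F.L n (some i) x ∧ ¬ (p : ℤ) ∣ F.L n none x

open Classical in
/-- The indicator function of `Qg`. -/
noncomputable def qi (F : Fam ι D) (i : ι) (n : ℕ) (x : ℤ) (p : ℕ) : ℝ :=
  if Qg F i n p x then 1 else 0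

/-- The sequence of the first member for the block `(M, 2 M]`. -/
noncomputable def a1 (F : Fam ι D) (M N : ℕ) : ℝ := thP N * wd (F.la none) (F.t none * M) N

/-- The last index of this sequence. -/
noncomputable def N1 (F : Fam ι D) (M : ℕ) : ℕ := ⌊3 * (F.t none * M)⌋₊

/-- The integer `x` with `F.L n none x = N`. -/
def xx (F : Fam ι D) (n N : ℕ) : ℤ := ((N : ℤ) - F.v n none) / F.u none

/-- The value of the second member if the first one is `N`. -/
def tt (F : Fam ι D) (i : ι) (n N : ℕ) : ℕ := (F.L n (some i) (xx F n N)).toNat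

/-- The values of the first member for given `n`. -/
noncomputable def Ns (F : Fam ι D) (M n : ℕ) : Finset ℕ :=
  (Icc 1 (N1 F M)).filter (fun N : ℕ => F.u none ∣ (N : ℤ) - F.v n none)

open Classical in
/-- The density of `Qt`. -/
noncomputable def r2 (F : Fam ι D) (i : ι) (n p : ℕ) : ℝ := rhoW (F.u none).natAbs (Qt F i n) p

open Classical in
/-- The density of `Qg`, conditional on `p ∤ t` for the primes `p ≤ w`. -/
noncomputable def r1 (F : Fam ι D) (i : ι) (w n p : ℕ) : ℝ :=
  if p ≤ w then rhoW (F.u none).natAbs (Qg F i n) p / (1 - r2 F i n p)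
  else rhoW (F.u none).natAbs (Qg F i n) p

end Pool.Agent.GC
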