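import Pool.Agent.Lib.MP_0da313_nt.GC.Defs
import Pool.Agent.Lib.MP_d610d0_nt.CH.D.Stm

set_option autoImplicit false

/-!
Project GC, section E: the exponential sums over primes in a residue class, minor arcs (Vinogradov's
method with Vaughan's identity). `R_x` is the conclusion, `S_x` the statement to be proved (with the
results it uses as hypotheses). `L = log X`. `ex x = exp(2 π i x)` and `mn H x = min (H, 1/(2 ‖x‖))`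
(`H` if `x` is an integer) are from `Lib/MP_1e1427_nt/SP/Defs.lean`; `SP80.SW1`, `SP80.SW3` are stated in
`SP/Stm.lean` and proved in `SP/W1.lean` (`sw1`), `SP/W3.lean` (`sw3`). `CH.D.R_vau` is proved in
`Lib/MP_d610d0_nt/CH/D/p_vau.lean`. `d` is the modulus of the residue class, `a` is coprime to `d`; the
rational approximation is the one of `d^2 θ`.
-/

namespace Pool.Agent.GC.E

open Finset Filter
open ArithmeticFunction (vonMangoldt)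
open Pool.Agent.MP89da58 (kapD)
open Pool.Agent.CH (thP)
open Pool.Agent.SP80 (ex mn SW1 SW3)

/-- A geometric progression in a residue class. -/
def R_ap : Prop := ∀ (d b u v : ℕ) (x H : ℝ), 1 ≤ d → 0 ≤ H → ((v : ℝ) - u) / d + 1 ≤ H →
  ‖∑ l ∈ (Ioc u v).filter (fun l => l ≡ b [MOD d]), ex (x * l)‖ ≤ mn H (d * x)

/-- [GC ap] (uses SP80 W1) Proof: the `l ∈ (u, v]` with `l ≡ b` modulo `d` are `l0 + d j`, `0 ≤ j < J`, and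
`J ≤ (v - u)/d + 1` (if there is none the sum is `0 ≤ mn`). The sum is `ex (x l0) ∑_{j < J} ex (j (d x))`, at most
`mn J (d x)` by `SW1` (`j0 = 0`), and `mn` is monotone in its first argument. -/
def S_ap : Prop := SW1 → R_ap

/-- The basic sum. -/
def R_min : Prop := (∀ (H x : ℝ) (d : ℕ), 0 ≤ H → 1 ≤ d → mn H x ≤ d * mn (H / d) (d * x)) ∧
  (∀ H H' x : ℝ, 0 ≤ H → H ≤ H' → 0 ≤ mn H x ∧ mn H x ≤ mn H' x) ∧
  ∀ (θ : ℝ) (h : ℤ) (q M : ℕ) (Y : ℝ), 0 < q → IsCoprime h (q : ℤ) →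
    |θ - h / q| ≤ 1 / (q : ℝ) ^ 2 → 0 ≤ Y → 1 ≤ M →
    ∑ m ∈ Icc 1 M, mn (Y / m) (m * θ)
      ≤ 100 * (Y / q + M + q) * (1 + Real.log q) * (1 + Real.log M)

/-- [GC min] (uses SP80 W3) Proof. `‖d x‖ ≤ d ‖x‖` (distance to the nearest integer: `d round x` is an integer),
so `min (H, 1/(2‖x‖)) ≤ min (H, d/(2‖d x‖)) = d min (H/d, 1/(2‖d x‖))` (if `d x` is an integer the right side is `H`).
Monotonicity is clear. The sum: for `m ≤ q/2` let `j = m h` modulo `q`, nonzero, of distance `|j|_q ≥ 1` from the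
multiples of `q`; `|m θ - m h/q| ≤ m/q^2 ≤ 1/(2q)`, so `‖m θ‖ ≥ |j|_q/q - 1/(2q) ≥ |j|_q/(2q)`, and each value
`s = |j|_q ∈ [1, q/2]` occurs at most twice (`m ↦ m h` is injective modulo `q`): these `m` contribute at most
`2 ∑_{s ≤ q} q/s ≤ 2 q (1 + log q)`. (`m ≤ q/2`, so only `q ≥ 2`.) The `m > q/2`: blocks `V < m ≤ 2V`, `V = 2^i q/2`
or all dyadic blocks `[2^i, 2^(i+1))` with `2^(i+1) > q/2`; in a block contained in `[V, 2V]`, `V ≥ q/4`, `V ≤ M`,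
`SW3` with `2V` and `H = Y/V` gives at most `6 (2V/q + 1)(Y/V + q (1 + log q)) ≤ 36 (V/q) (Y/V + q(1 + log q))
= 36 (Y/q + V (1 + log q))`; there are at most `1 + log M/log 2 ≤ 1.5 (1 + log M)` blocks, and `∑ V ≤ 2M`. Total
`≤ 2q(1 + log q) + 54 (1 + log M) Y/q + 72 M (1 + log q)`. (Any other organisation of the proof is fine; if
the constant `100` is a problem tell helper76.) -/
def S_min : Prop := SW3 → R_min

/-- Type I sums. -/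
def R_t1 : Prop := ∀ (d a q M : ℕ) (θ Y : ℝ) (h : ℤ) (u v : ℕ → ℕ), 1 ≤ d → a.Coprime d → 0 < q →
  IsCoprime h (q : ℤ) → |(d : ℝ) ^ 2 * θ - h / q| ≤ 1 / (q : ℝ) ^ 2 → 0 ≤ Y → 1 ≤ M →
  (∀ m ∈ Icc 1 M, ((v m : ℕ) : ℝ) ≤ Y / m) →
  ∑ m ∈ Icc 1 M, ‖∑ l ∈ (Ioc (u m) (v m)).filter (fun l => m * l ≡ a [MOD d]),
      ex (θ * ((m * l : ℕ) : ℝ))‖
    ≤ 200 * (Y / (d * q) + d * M + d * q) * (1 + Real.log q) * (1 + Real.log M)

/-- [GC t1] (uses ap, min) Proof: if `m` is not coprime to `d` there is no `l` with `m l ≡ a` modulo `d`. Otherwise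
`m l ≡ a` iff `l ≡ b` for an inverse `b` of `m` times `a`, and `R_ap` with `x = m θ`, `H = Y/(m d) + 1` gives
`mn H (d (m θ)) ≤ d mn (H/d) (m (d^2 θ))` (`R_min`, first part). As `m ≤ M`, `H/d = Y/(m d^2) + 1/d ≤ Y'/m` with
`Y' = Y/d^2 + M/d`. So the sum is at most `d * 100 (Y'/q + M + q)(1 + log q)(1 + log M)` (`R_min` for `d^2 θ`), and
`d (Y'/q + M + q) = Y/(d q) + M/q + d M + d q ≤ 2 (Y/(d q) + d M + d q)`. -/
def S_t1 : Prop := R_ap → R_min → R_t1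

/-- Type II sums, one block. -/
def R_t2 : Prop := ∀ (d a q M L Y : ℕ) (θ : ℝ) (h : ℤ) (α β : ℕ → ℂ), 1 ≤ d → a.Coprime d → 0 < q →
  IsCoprime h (q : ℤ) → |(d : ℝ) ^ 2 * θ - h / q| ≤ 1 / (q : ℝ) ^ 2 →
  ‖∑ m ∈ Ioc M (2 * M), ∑ l ∈ Ioc L (2 * L), (if m * l ≡ a [MOD d] ∧ m * l ≤ Y then
      α m * β l * ex (θ * ((m * l : ℕ) : ℝ)) else 0)‖ ^ 2
    ≤ 13 * ((L : ℝ) / (d * q) + 1) * ((M : ℝ) / d + 1 + q * (1 + Real.log q)) *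
      ((∑ m ∈ Ioc M (2 * M), ‖α m‖ ^ 2) * ∑ l ∈ Ioc L (2 * L), ‖β l‖ ^ 2)

/-- [GC t2] (uses ap, min, SP80 W3) Proof: by Cauchy the left side is at most `∑ ‖α m‖^2` times
`∑_m ‖∑_l ...‖^2 = ∑_{l, l'} β l conj(β l') ∑_m ex (θ m (l - l'))`, where `m ∈ (M, 2M]` is subject to `m l ≡ a`,
`m l' ≡ a` modulo `d`, `m l ≤ Y`, `m l' ≤ Y`. If there is such an `m`, it is coprime to `d`, so `l ≡ l'` modulo `d`, `l` is
coprime to `d` and the condition on `m` is one class modulo `d` and an interval: `R_ap` with `H = M/d + 1`,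
`x = θ (l - l')` (integers: apply it with `|l - l'|`, the norm is invariant under conjugation), gives
`mn H (d θ (l - l')) = mn H (k (d^2 θ))`, `l - l' = d k`. `|β l β l'| ≤ (|β l|^2 + |β l'|^2)/2`, so the sum is at most
`∑_l |β l|^2 (H + 2 ∑_{1 ≤ k ≤ V} mn H (k d^2 θ))`, `V = ⌊L/d⌋`, and `SW3`:
`H + 12 (V/q + 1)(H + q (1 + log q)) ≤ 13 (L/(d q) + 1)(H + q(1 + log q))`. (`mn H (-x) = mn H x`; it can be avoided
by symmetry in `l, l'`.) -/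
def S_t2 : Prop := R_ap → R_min → SW3 → R_t2

/-- Minor arcs for the von Mangoldt function. -/
def R_La : Prop := ∀ A : ℕ, ∃ B : ℕ, ∀ᶠ X : ℝ in atTop, ∀ (d a q Y : ℕ) (h : ℤ) (θ : ℝ), 1 ≤ d →
  (d : ℝ) ≤ X ^ (1 / 50 : ℝ) → a.Coprime d → (Real.log X) ^ B ≤ q →
  (q : ℝ) ≤ X / ((d : ℝ) ^ 2 * (Real.log X) ^ B) → IsCoprime h (q : ℤ) →
  |(d : ℝ) ^ 2 * θ - h / q| ≤ 1 / (q : ℝ) ^ 2 → (Y : ℝ) ≤ 2 * X →
  ‖∑ t ∈ (Icc 1 Y).filter (fun t => t ≡ a [MOD d]), (vonMangoldt t : ℂ) * ex (θ * t)‖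
    ≤ X / d / (Real.log X) ^ A

/-- [GC La] (uses t1, t2, CH.D vau) Proof: `B = 2A + 40`. `U = V = ⌊X^(1/5)⌋₊`. The `t ≤ U` contribute at most
`U log U`. `CH.D.R_vau` with `X := Y` and `w t = ex (θ t)` if `U < t ≤ Y` and `t ≡ a`, else `0` (if `Y ≤ U` there is
nothing to do). `T1 = ∑_{m ≤ V} c m ∑_l log l w(m l)`: by Abel summation the inner sum (over `l ∈ (U/m, Y/m]`) is at
most `2 log(2X)` times the norm of `∑_{u_m < l ≤ v_m} ex (θ m l)` over the class, for a suitable `v_m ≤ Y/m` (choose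
the partial sum with the largest norm), so by `R_t1` with `Y := 2X`, `M = V`:
`|T1| ≤ 2 log(2X) * 200 (2X/(d q) + d V + d q)(1 + log q)(1 + log V)`; `d q ≤ X/(d L^B)`, `q ≥ L^B`, `d V ≤ X^(1/4)`: at
most `(X/d) L^(4-B)` for large `X`. `T2`: `|d m| ≤ log m`, `m ≤ U V ≤ X^(2/5)`: the same with `M = U V`.
`T3 = ∑ α m β l w(m l)`, `α m = Λ m [m > U]`, `β = e`, `β l = 0` for `l ≤ V`: the blocks `(M_i, 2M_i] × (L_j, 2L_j]`,
`M_i = 2^i U`, `L_j = 2^j V`, with `M_i L_j ≤ Y ≤ 2X` (the other ones are empty), at most `(2L)^2` of them. In each,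
`∑ Λ^2 ≤ M (log 4X)^2`, `∑ e^2 ≤ ∑_{l ≤ 2L_j} τ(l)^2 ≤ 2 L_j (1 + log 2L_j)^3` (`sum_tau_sq`,
`Lib/MP_89da58_nt/LargeArith.lean`), and `R_t2` (with `Y`; write `N` for `L_j`):
`|block|^2 ≤ C L^6 M N (N M/(d^2 q) + N/(d q) + N/d + M/d + 1 + q)` up to a factor `L` (`M N ≤ 2X`, `N/(dq) ≤ N/d`).
`N ≤ 2X/U`, `M ≤ 2X/V`, `U, V ≥ X^(1/5)/2 ≥ d X^(1/10)`, `q ≤ X/(d^2 L^B)`: it is at most
`(X/d)^2 C' L^8 (1/q + d/U + d/V + L^(-B)) ≤ (X/d)^2 L^(10-B)`. So `|T3| ≤ 4 L^2 (X/d) L^(5 - B/2)`. -/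
def S_La : Prop := R_t1 → R_t2 → CH.D.R_vau → R_La

/-- Minor arcs for the model. -/
def R_hh : Prop := ∀ A : ℕ, ∃ B : ℕ, ∀ᶠ X : ℝ in atTop, ∀ w k : ℕ, Pm X (1 / 100) 1 w k →
  ∀ (d a q Y : ℕ) (h : ℤ) (θ : ℝ), 1 ≤ d →
  (d : ℝ) ≤ X ^ (1 / 50 : ℝ) → a.Coprime d → (Real.log X) ^ B ≤ q →
  (q : ℝ) ≤ X / ((d : ℝ) ^ 2 * (Real.log X) ^ B) → IsCoprime h (q : ℤ) →
  |(d : ℝ) ^ 2 * θ - h / q| ≤ 1 / (q : ℝ) ^ 2 → (Y : ℝ) ≤ 2 * X →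
  ‖∑ t ∈ (Icc 1 Y).filter (fun t => t ≡ a [MOD d]), (HH w k t : ℂ) * ex (θ * t)‖
    ≤ X / d / (Real.log X) ^ A

/-- [GC hh] (uses t1) Proof: `B = A + 5`. `HH w k t = κ⁻¹ ∑_{S ⊆ prs w, |S| ≤ k} (-1)^|S| [∏ S ∣ t]`, `κ = kapD w`
(compare `repB_U` in `BV/Hooley.lean`; `∏_{p ∈ S} dv t p = [∏ S ∣ t]` since the `p` are distinct primes).
`κ⁻¹ ≤ 1000 log w` (`mertens`, `MT/Mertens.lean`, `w ≥ log X ≥ 2`) and `w ≤ w^(k+1) ≤ X`, so `κ⁻¹ ≤ 1000 L`.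
For each `S`, `m = ∏ S ≤ w^k ≤ X^(1/100)`, the map `S ↦ m` is injective (unique factorisation), and the sum over the
`t = m l`, `l ≤ Y/m`, is the inner sum of `R_t1` (`u = 0`, `v m = Y / m`). So the norm is at most
`1000 L * 200 (2X/(d q) + d X^(1/100) + d q)(1 + log q)(1 + log X)`, with `Y := 2X`, `M = ⌊X^(1/100)⌋₊`. -/
def S_hh : Prop := R_t1 → R_hh

/-- Minor arcs for `ES`. -/
def R_mA : Prop := ∀ A : ℕ, ∃ B : ℕ, ∀ᶠ X : ℝ in atTop, ∀ w k : ℕ, Pm X (1 / 100) 1 w k →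
  ∀ (d a q : ℕ) (h : ℤ) (θ : ℝ), 1 ≤ d →
  (d : ℝ) ≤ X ^ (1 / 50 : ℝ) → a.Coprime d → (Real.log X) ^ B ≤ q →
  (q : ℝ) ≤ X / ((d : ℝ) ^ 2 * (Real.log X) ^ B) → IsCoprime h (q : ℤ) →
  |(d : ℝ) ^ 2 * θ - h / q| ≤ 1 / (q : ℝ) ^ 2 → ‖ES w k X d a θ‖ ≤ X / d / (Real.log X) ^ A

/-- [GC mA] (uses La, hh) Proof: `B` = the maximum of the two `B` for `A + 1` (if `L^B ≤ q ≤ X/(d^2 L^B)` then the
same holds for smaller exponents, `L ≥ 1`). `Λ - thP ≥ 0`, `∑_{t ≤ 2X} (Λ - thP) ≤ C √X log X` (Chebyshev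
functions in Mathlib, `Chebyshev.abs_psi_sub_theta_le_sqrt_mul_log` or similar, compare
`Lib/MP_d610d0_nt/CH/D/p_pp.lean`) `≤ (X/d)/L^(A+1)`. So all partial sums `∑_{t ≤ Y, t ≡ a} (thP t - HH w k t) ex (θ t)`,
`Y ≤ 2X`, have norm at most `3 (X/d)/L^(A+1)`. Abel summation with `g(t) = tz (t/X)`, which vanishes at `t = ⌊2X⌋₊`
(for `X ≥ 10`), is unimodal with values in `[0, 1]`: `∑ |g(t) - g(t+1)| ≤ 2`. Total `≤ 6 (X/d)/L^(A+1) ≤ (X/d)/L^A`. -/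
def S_mA : Prop := R_La → R_hh → R_mA

end Pool.Agent.GC.E
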