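import Pool.Agent.Lib.MP_0da313_nt.GC.B

set_option autoImplicit false

/-!
Project GC, section P: the error term on average over `n` (Parseval's identity). `X1 = F.t none * M`,
`X2 = F.t (some i) * M`, `F.t l > 0` (`F.hth`, `F.hhw`, `F.hu`). `Ns F M n` is the set of the values `N ≤ 3 X1` of the
first member, `xx F n N` the corresponding `x` and `tt F i n N` the value of the second member.
-/

namespace Pool.Agent.GC.P

open Finset Filter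
open Pool.Agent.BVall (om rhoW PK lev RepB Dens FK)
open Pool.Agent.CH (thP)
open Pool.Agent.CM (Fam)
open Pool.Agent.SP80 (ex)

/-- The sequence of the second member. -/
noncomputable def bt {ι : Type} [Fintype ι] [DecidableEq ι] {D : ℕ} (F : Fam ι D) (i : ι)
    (w k M t : ℕ) : ℝ := (thP t - HH w k t) * tz (t / (F.t (some i) * M))

/-- Parseval's identity and Cauchy's inequality. -/
def R_par : Prop := ∀ (α1 α2 Δ c0 : ℤ), α2 ≠ 0 → Δ ≠ 0 → ∀ (Z S T : Finset ℕ) (c A B : ℕ → ℂ)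
  (E : ℝ), (∀ θ : ℝ, ‖∑ t ∈ T, B t * ex (θ * t)‖ ≤ E) →
  ‖∑ n ∈ Z, ∑ s ∈ S, ∑ t ∈ T, (if α1 * (t : ℤ) = α2 * s + Δ * n + c0 then c n * A s * B t else 0)‖
    ≤ E * Real.sqrt ((∑ n ∈ Z, ‖c n‖ ^ 2) * ∑ s ∈ S, ‖A s‖ ^ 2)

/-- [GC par] Proof: `∫_0^1 ex (j θ) dθ = 1` for the integer `j = 0` and `0` for other integers `j`, so the sum is
`∫_0^1 C(θ) A'(θ) B'(θ) ex(-c0 θ) dθ` with `C = ∑ c n ex(-Δ n θ)`, `A' = ∑ A s ex(-α2 s θ)`, `B' = ∑ B t ex(α1 t θ)` (a finite sum of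
integrals), of norm at most `E ∫ |C| |A'| ≤ E (∫ |C|^2)^(1/2) (∫ |A'|^2)^(1/2)`, and `∫_0^1 |C|^2 = ∑ |c n|^2` as the
frequencies `-Δ n` are distinct (`Δ ≠ 0`), same for `A'` (`α2 ≠ 0`). `E ≥ 0`. (Compare `SP80.SPP`,
`Lib/MP_1e1427_nt/SP/PP.lean`. Cauchy's inequality for integrals can be replaced by
`|C| |A'| ≤ (x |C|^2 + |A'|^2/x)/2` and a choice of `x`.) -/
def S_par : Prop := R_par

/-- One set of primes. -/
def R_cs : Prop := ∀ (ι : Type) [Fintype ι] [DecidableEq ι] (D : ℕ) (F : Fam ι D) (i : ι), Per F → Dt F i →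
  ∃ C : ℝ, 0 ≤ C ∧ ∀ᶠ M : ℕ in atTop, ∀ (w k : ℕ) (T : Finset ℕ), (∀ p ∈ T, p.Prime) →
  ((∏ p ∈ T, p : ℕ) : ℝ) ≤ (M : ℝ) ^ (1 / 60 : ℝ) → ∀ E : ℝ,
  (∀ (a : ℕ) (θ : ℝ), a.Coprime (∏ p ∈ T, p) → ‖ES w k (F.t (some i) * M) (∏ p ∈ T, p) a θ‖ ≤ E) →
  ∑ n ∈ Ioc M (2 * M), |∑ N ∈ Ns F M n, a1 F M N * bt F i w k M (tt F i n N) *
      ∏ p ∈ T, qi F i n (xx F n N) p|
    ≤ C * (D : ℝ) ^ T.card * (M * Real.log M) * E

/-- [GC cs] (uses par) Proof. `d = ∏ T` (squarefree), `u = F.u none`, `ui = F.u (some i)`, `W = |u| d ≤ M`. Let `M ≥ F.N0` be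
large. Split the `n ∈ (M, 2M]` into the classes `v` modulo `W`. Whether `Qg F i n p x` holds depends, for `p ∈ T`, only on
`n` and `x` modulo `p` (`Per F`, and `F.L n l x = u l x + b l n + c l`). Let `R_v` be the set of the `ρ < d` such that
`Qg F i n p ρ` for all `p ∈ T` (`n` in the class `v`): `|R_v| ≤ D^|T|` (`count_primes` as in `class_estimate`,
`BV/Classes.lean`; `om (Qg F i n) p ≤ D` since `Qg` implies `p ∣ G(x)`, and `G = F.G n` has degree `≤ D` and does not vanish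
identically modulo `p`: `F.hdeg`, `F.hloc`, `card_roots_mod_le`, see `CM/P/dns.lean`). For `N ∈ Ns F M n`, `x = xx F n N`:
`∏_{p ∈ T} qi F i n x p = ∑_{ρ ∈ R_v} [d ∣ ρ - x]`, and `N ∈ Ns`, `d ∣ ρ - x` means `W ∣ u ρ + F.v n none - N`
(`dvd_iff_class`, `BV/Classes.lean`), i.e. `N ≡ σ(v, ρ)` modulo `W` (`F.v n none = b n + c` only depends on `v` modulo `W`).
For these `N`, `L = F.L n (some i) x` satisfies `u L = ui N + Δ n + c0`, `Δ = u b_i - ui b ≠ 0` (`Dt`),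
`c0 = u c_i - ui c`, and conversely `L` is determined by this equation; `L ≡ a` modulo `d`, where `a ≥ 0` is the residue
of `F.L n (some i) ρ` (independent of `n` in the class), coprime to `d` by `Qg`. `bt .. (L.toNat) = 0` unless
`1 ≤ L ≤ 2 X2` (`tz = 0` for `t = 0` and for `t > 2 X2`). So for signs `ε n`
`∑_{n ≡ v} ε n ∑_{N ≡ σ} a1 N bt(tt) = ∑_n ∑_N ∑_t [u t = ui N + Δ n + c0] ε n a1(N) bt(t)`, with `n ∈ (M, 2M]`, `n ≡ v` modulo `W`,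
`N ∈ Icc 1 (N1 F M)`, `N ≡ σ` modulo `W`, `t ∈ Icc 1 ⌊2 X2⌋₊`, `t ≡ a` modulo `d`. `R_par` with `α1 = u`, `α2 = ui`; the hypothesis for
`B = bt` is the one on `ES`. `∑ |ε|^2 ≤ M/W + 1 ≤ 2M/d`, `∑ a1^2 ≤ (log 3X1)^2 (3X1/W + 1) ≤ C' (log M)^2 M/d`. So each pair
`(v, ρ)` contributes at most `C'' (M/d) log M * E`, and there are at most `|u| d D^|T|` pairs. -/
def S_cs : Prop := R_par → R_cs

/-- The error term on average. -/
def R_pe : Prop := ∀ (ι : Type) [Fintype ι] [DecidableEq ι] (D : ℕ) (F : Fam ι D) (i : ι), Per F → Dt F i →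
  1 ≤ D → ∀ A : ℕ, ∃ K0 : ℕ, ∀ᶠ M : ℕ in atTop, ∀ w k : ℕ, Pm (F.t (some i) * M) (1 / 100) K0 w k →
  ∀ n' : ℕ, (lev (2 * D) n' : ℝ) ≤ (M : ℝ) ^ (1 / 60 : ℝ) →
  ∑ n ∈ Ioc M (2 * M), |∑ N ∈ Ns F M n, a1 F M N * bt F i w k M (tt F i n N) *
      FK (2 * D) n' (qi F i n (xx F n N))|
    ≤ (M : ℝ) ^ 2 / (Real.log M) ^ A

/-- [GC pe] (uses cs, B bv) Proof: `repB_FK` (`BV/Hooley.lean`): `FK (2D) n' ρ = ∑_{T ⊆ PK} c T ∏_{p ∈ T} ρ p`, `|c T| ≤ 1`,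
`c T = 0` unless `∏ T ≤ lev (2D) n'`. `B.R_bv` with `A + 3`, `b = D` at `X = X2 = F.t (some i) * M` (tends to infinity) gives
`K0` and `E`. For each `T ⊆ PK (2D) n'` with `∏ T ≤ lev ≤ M^(1/60) ≤ X2^(1/50)` use `R_cs` with `E (∏ T)`; so the sum is at
most `C M log M ∑_T D^|T| E(∏ T) ≤ C M log M ∑_{q ≤ X2^(1/50) squarefree} D^ω(q) E q` (`sum_err_le`, `BV/Classes.lean`)
`≤ C M log M * X2/(log X2)^(A+3) ≤ M^2/(log M)^A` for large `M`. (The elements of `PK` are primes: `mem_PK`.) -/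
def S_pe : Prop := R_cs → B.R_bv → R_pe

end Pool.Agent.GC.P
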