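import Pool.Agent.Lib.MP_0da313_nt.GC.P
import Pool.Agent.Lib.MP_0da313_nt.CM.G
import Pool.Agent.Lib.MP_0da313_nt.CM.L

set_option autoImplicit false

/-!
Project GC, section S: the sum with the model for a single `n`, and the windows. `CM.G.R_cls` is proved in
`CM/P/cls.lean` (theorem `G.p_cls`), `CM.B.R_B` in `CM/Main.lean` (`B.h_B`), `CM.M.R_mu`, `CM.M.R_m1` there too (`M.h_mu`,
`M.h_m1`), `CM.W.R_pr` in `CM/P/pr.lean`. `z0 D n' = 2 ^ (2 ^ (2 D + n'))`, `PK (2 D) n'` is the set of the primes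
`≤ z0 D n'` (`mem_PK`). `F.V n n' = ∏_{p ≤ z0 D n'} (1 - om_G(p)/p)`.
-/

namespace Pool.Agent.GC.S

open Finset Filter
open Pool.Agent.MP89da58 (kapD)
open Pool.Agent.BVall (om rhoW PK lev RepB Dens FK)
open Pool.Agent.Lib.MP_0da313_nt (W U)
open Pool.Agent.CH (thP)
open Pool.Agent.CM (Fam er sT z0)

open Classical in
/-- One set of primes of the sieve. -/
def R_e1 : Prop := ∀ (ι : Type) [Fintype ι] [DecidableEq ι] (D : ℕ) (F : Fam ι D) (i : ι) (n : ℕ),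
  F.N0 ≤ n → ∀ (w k : ℕ) (T : Finset ℕ), (∀ p ∈ T, p.Prime) → ∀ (a : ℕ → ℝ) (N : ℕ),
  (∀ m ∈ Icc 1 N, F.u none ∣ (m : ℤ) - F.v n none → a m ≠ 0 →
    0 < F.L n (some i) (xx F n m) ∧ ∀ p : ℕ, p.Prime → p ≤ w → ¬ p ∣ m) →
  ∀ E : ℕ → ℝ, (∀ q b : ℕ, 0 < q → b.Coprime ((F.u none).natAbs * q) →
    er a N ((F.u none).natAbs * q) b ≤ E q) →
  |∑ m ∈ (Icc 1 N).filter (fun m : ℕ => F.u none ∣ (m : ℤ) - F.v n none),
      a m * U (dv (tt F i n m)) (prs w) k * ∏ p ∈ T, qi F i n (xx F n m) p -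
    sT a N / (Nat.totient (F.u none).natAbs : ℝ) * (∏ p ∈ T, rhoW (F.u none).natAbs (Qg F i n) p) *
      U (r2 F i n) ((prs w).filter (fun p => p ∉ T)) k|
  ≤ ∑ S ∈ (prs w).powerset.filter (fun S => S.card ≤ k ∧ Disjoint S T),
      (D : ℝ) ^ (T.card + S.card) * E ((∏ p ∈ T, p) * ∏ p ∈ S, p)

/-- [GC e1] (uses CM.G cls) Proof: `U (dv t) (prs w) k = ∑_{S ⊆ prs w, |S| ≤ k} (-1)^|S| ∏_{p ∈ S} dv t p` (as in `repB_U`,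
`BV/Hooley.lean`). Let `a m ≠ 0`, `x = xx F n m`, `t = tt F i n m = (F.L n (some i) x).toNat`, `F.L n (some i) x > 0`, so for
`p ≤ w` prime `dv t p = 1` iff `p ∣ F.L n (some i) x` iff `Qt F i n p x` (`F.L n none x = m` is not divisible by `p`:
`x = (m - v)/u`, `u x + v = m`). If `p ∈ S ∩ T` then `dv t p * qi F i n x p = 0` (`Qg` says `p ∤ F.L n (some i) x`). For `S` disjoint
from `T` apply `CM.G.R_cls` (with `u = F.u none`, `v = F.v n none`, `F.hu`, `F.huv`, `K = D`) to the set `T ∪ S` and the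
condition `Q' p x = (p ∈ T ∧ Qg F i n p x) ∨ (p ∉ T ∧ Qt F i n p x)`, which is periodic modulo `p` and implies `p ∤ F.L n none x`
and `p ∣ (F.G n).eval x` (`F.hG n _ (some i)` for `Qt`), so `om Q' p ≤ D` (`F.hdeg`, `F.hloc`, `card_roots_mod_le`, see
`CM/P/dns.lean`). The main terms `(-1)^|S| ∏_T rhoW(Qg) ∏_S r2` add up to `∏_T rhoW(Qg) * U (r2) (prs w \ T) k`. (In `R_cls` the
product over `T ∪ S` splits, `rhoW`, `om` only depend on the condition at `p`.) -/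
def S_e1 : Prop := CM.G.R_cls → R_e1

open Classical in
/-- All sets of primes of the sieve. -/
def R_e2 : Prop := ∀ (ι : Type) [Fintype ι] [DecidableEq ι] (D : ℕ) (F : Fam ι D) (i : ι) (n : ℕ),
  F.N0 ≤ n → 1 ≤ D → ∀ (w k n' Y : ℕ), w ≤ z0 D n' → lev (2 * D) n' * w ^ k ≤ Y → 1 ≤ w →
  (∀ p : ℕ, p.Prime → p ≤ w → r2 F i n p ≠ 1) → ∀ ε : ℝ,
  (∀ P : Finset ℕ, P ⊆ prs w → |U (r2 F i n) P k - W (r2 F i n) P| ≤ ε) → ∀ (a : ℕ → ℝ) (N : ℕ),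
  (∀ m ∈ Icc 1 N, F.u none ∣ (m : ℤ) - F.v n none → a m ≠ 0 →
    0 < F.L n (some i) (xx F n m) ∧ ∀ p : ℕ, p.Prime → p ≤ w → ¬ p ∣ m) →
  ∀ E : ℕ → ℝ, (∀ q, 0 ≤ E q) → (∀ q b : ℕ, 0 < q → b.Coprime ((F.u none).natAbs * q) →
    er a N ((F.u none).natAbs * q) b ≤ E q) →
  |∑ m ∈ (Icc 1 N).filter (fun m : ℕ => F.u none ∣ (m : ℤ) - F.v n none),
      a m * HH w k (tt F i n m) * FK (2 * D) n' (qi F i n (xx F n m)) -
    (kapD w)⁻¹ * (sT a N / (Nat.totient (F.u none).natAbs : ℝ)) *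
      (W (r2 F i n) (prs w) * FK (2 * D) n' (r1 F i w n))|
  ≤ (kapD w)⁻¹ * (∑ q ∈ (Icc 1 Y).filter Squarefree, ((2 * D : ℕ) : ℝ) ^ q.primeFactors.card * E q +
      |sT a N| * ((∏ p ∈ PK (2 * D) n', (1 + rhoW (F.u none).natAbs (Qg F i n) p)) * ε))

/-- [GC e2] (uses e1) Proof: `FK (2D) n' ρ = ∑_{T ⊆ PK (2D) n'} c T ∏_{p ∈ T} ρ p`, `|c T| ≤ 1`, `c T = 0` unless
`∏ T ≤ lev (2D) n'` (`repB_FK`). `HH w k t = (kapD w)⁻¹ U (dv t) (prs w) k`, `kapD w > 0`. For each `T`: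
`∏_{p ∈ T} r1 F i w n p = ∏_{p ∈ T} rhoW(Qg) p / ∏_{p ∈ T, p ≤ w} (1 - r2 p)` and
`W (r2) (prs w) = W (r2) (prs w \ T) * ∏_{p ∈ T, p ≤ w} (1 - r2 p)` (the elements of `T` are primes), so
`W (r2) (prs w) ∏_T r1 = ∏_T rhoW(Qg) * W (r2) (prs w \ T)` (the factors `1 - r2 p` are nonzero). The difference to the
main term of `R_e1` is at most `|sT a N|/φ * ∏_T rhoW(Qg) * ε` (`rhoW ≥ 0`), and
`∑_{T ⊆ PK} ∏_T rhoW(Qg) = ∏_{PK} (1 + rhoW(Qg))`, `φ ≥ 1`. The errors of `R_e1`: pairs `(T, S)`, disjoint, `S ⊆ prs w ⊆ PK`,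
`|S| ≤ k`, `∏ T ∏ S ≤ lev (2D) n' * w^k ≤ Y` (each `p ∈ S` is `≤ w`, and `1 ≤ w`): `q = ∏_{T ∪ S} p` is squarefree,
`q.primeFactors = T ∪ S`, for given `q` there are at most `2^ω(q)` pairs, `D^(|T|+|S|) 2^ω(q) = (2D)^ω(q)`
(compare `CM/P/es1.lean`, `pair_sum_le` in `MT/S2.lean`). -/
def S_e2 : Prop := R_e1 → R_e2

open Classical in
/-- The densities. -/
def R_dn : Prop := ∀ (ι : Type) [Fintype ι] [DecidableEq ι] (D : ℕ) (F : Fam ι D) (i : ι) (n : ℕ),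
  F.N0 ≤ n → 1 ≤ D →
  (∀ p : ℕ, p.Prime → 0 ≤ r2 F i n p ∧ r2 F i n p < 1 ∧ r2 F i n p ≤ 2 / p ∧
    0 ≤ rhoW (F.u none).natAbs (Qg F i n) p ∧
    rhoW (F.u none).natAbs (Qg F i n) p ≤ D / ((p : ℝ) - 1)) ∧
  ∀ w : ℕ, Dens (2 * D) (fun p => if p.Prime then r1 F i w n p else 0)

/-- [GC dn] Proof: let `u = F.u none`, `s(x) = F.L n none x`, `t(x) = F.L n (some i) x`, `G = F.G n`; `s ∣ G` and `t ∣ G` (`F.hG`).
`u` and `F.v n none` are coprime (`F.huv`): if `p ∣ u` then `p ∤ s(x)` for all `x`; if `p ∤ u` there is exactly one class `x`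
modulo `p` with `p ∣ s(x)`. So the denominator `m1` of `rhoW |u| _ p` is the number of the classes with `p ∤ s(x)`, `m1 ≥ p - 1`.
In the same way at most one class has `p ∣ t(x)`. `om (Qt) p ≤ 1`, so `r2 ≤ 1/(p-1) ≤ 2/p`. There is a class with
`p ∤ G(x)` (`F.hloc`), for which `p ∤ s(x)`, `p ∤ t(x)`: hence `om (Qt) p < m1`, `r2 < 1`. `om (Qg) p ≤ D` (roots of `G`,
`card_roots_mod_le`, see `CM/P/dns.lean`). `Dens (2D)`: let `m2 = m1 - om (Qt) p ≥ 1` be the number of the classes with `p ∤ s`,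
`p ∤ t`; `m2 ≥ p - 2`. For `p ≤ w`: `r1 = (om (Qg)/m1)/(m2/m1) = om (Qg)/m2`, and `om (Qg) ≤ m2 - 1` (the class with `p ∤ G`), so
`r1 ≤ 1 - 1/m2 ≤ 1 - 1/p`; for `p > w`: `r1 = om (Qg)/m1 ≤ (m1 - 1)/m1 ≤ 1 - 1/p`. `r1 ≤ 2D/p`: for `p ≥ 5`, `m1 ≥ m2 ≥ p - 2 ≥ p/2`
and `om (Qg) ≤ D`; for `p = 2`: `r1 ≤ 1/2 ≤ 2D/2`; for `p = 3`: `r1 ≤ 2/3 ≤ 2D/3`. -/
def S_dn : Prop := R_dn

open Classical in
/-- Comparison of the products. -/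
def R_cp : Prop := ∀ (ι : Type) [Fintype ι] [DecidableEq ι] (D : ℕ) (F : Fam ι D) (i : ι) (n n' w : ℕ),
  F.N0 ≤ n → 1 ≤ D → 2 ≤ w → w ≤ z0 D n' →
  (∀ p : ℕ, p.Prime → w < p → ¬ p ∣ (F.u none).natAbs ∧ ¬ p ∣ (F.u (some i)).natAbs) →
  (∀ S : Finset ℕ, (∀ p ∈ S, p.Prime ∧ w < p ∧
    (p : ℤ) ∣ F.u none * F.v n (some i) - F.u (some i) * F.v n none) → ∑ p ∈ S, 1 / (p : ℝ) ≤ 1 / 2) →
  F.V n n' / (2 * |(F.u none : ℝ)| * kapD (z0 D n') ^ 2) ≤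
    (kapD w)⁻¹ * (1 / (Nat.totient (F.u none).natAbs : ℝ)) *
      (W (r2 F i n) (prs w) * W (r1 F i w n) (PK (2 * D) n'))

/-- [GC cp] Proof: notation as in `S_dn`; `z = z0 D n'`, `g_p = om_G(p)` the number of the classes with `p ∣ G(x)`,
`m1` the number of the classes with `p ∤ s(x)`. For `p ≤ w`: `(1 - r2)(1 - r1) = (m2/m1)(1 - om(Qg)/m2) = (p - g_p)/m1`, which is
`(1 - g_p/p)(1 - 1/p)⁻¹` if `p ∤ u` and `1 - g_p/p` if `p ∣ u`. `∏_{p ≤ w, p ∤ u} (1 - 1/p)⁻¹ = (kapD w)⁻¹ ∏_{p ∣ u} (1 - 1/p)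
= (kapD w)⁻¹ φ(|u|)/|u|` (all prime factors of `u` are `≤ w`; `totient_div` in `MT/Orient.lean`). So the right side is
`(kapD w)⁻² (1/|u|) ∏_{p ≤ w} (1 - g_p/p) ∏_{w < p ≤ z} (1 - r1 p)`. For `w < p ≤ z`: `m1 = p - 1`, `κ = om(Qg) p`, `r1 = κ/(p-1)`. One
class has `p ∣ s`, one class has `p ∣ t`, and they agree iff `p ∣ u v_i - u_i v` (`v = F.v n none`, `v_i = F.v n (some i)`). If not:
`g_p = κ + 2`, and `(1 - g_p/p)(1 - 1/p)⁻² = p (p - 2 - κ)/(p-1)^2 ≤ (p - 1 - κ)/(p-1) = 1 - r1`. If they agree: `g_p = κ + 1`,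
`1 - r1 = (1 - g_p/p)(1 - 1/p)⁻¹ = (1 - g_p/p)(1 - 1/p)⁻² (1 - 1/p)`. All factors are `≥ 0` (`g_p ≤ p - 1`, `F.hloc`). Hence the
right side is at least `(kapD w)⁻² (1/|u|) F.V n n' (kapD w/kapD z)^2 ∏' (1 - 1/p)`, `∏'` over the primes `w < p ≤ z` which
divide `u v_i - u_i v`, and `∏' (1 - 1/p) ≥ 1 - ∑' 1/p ≥ 1/2`. (`F.V n n' = W (om_G(p)/p) (PK (2D) n')`.) -/
def S_cp : Prop := R_cp

/-! ### Windows, masses, parameters -/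

/-- Location of the windows in a block. -/
def R_wl : Prop := ∀ (ι : Type) [Fintype ι] [DecidableEq ι] (D : ℕ) (F : Fam ι D) (i : ι),
  ∃ η : ℝ, 0 < η ∧ η ≤ 1 ∧ ∀ᶠ M : ℕ in atTop, ∀ n ∈ Ioc M ⌊(1 + η) * M⌋₊, ∀ N ∈ Icc 1 (N1 F M),
  F.u none ∣ (N : ℤ) - F.v n none → a1 F M N ≠ 0 →
  N.Prime ∧ F.t none * M / 3 ≤ N ∧ F.L n none (xx F n N) = N ∧ 0 < xx F n N ∧ xx F n N < n ∧
  99 / 100 * (F.t (some i) * M) ≤ F.L n (some i) (xx F n N) ∧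
  (F.L n (some i) (xx F n N) : ℝ) ≤ 101 / 100 * (F.t (some i) * M) ∧
  tz ((tt F i n N : ℝ) / (F.t (some i) * M)) = 1

/-- [GC wl] Proof: compare `CM/P/win.lean`. `u = F.u none`, `t0 = F.t none = u ξ + b ≥ 1000 |u| hw > 0`, `X1 = t0 M`,
`la = F.la none = t0/(|u| hw) ≥ 1000`. `a1 ≠ 0`: `N` is prime and `|log(N/X1)| < 1/la`, so `|N - X1| ≤ 1.01 X1/la = 1.01 |u| hw M`,
`N ≥ X1/3`. `x = (N - b n - c)/u` exactly (divisibility), `F.L n none x = N`. With `n = M + m`, `0 < m ≤ η M`: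
`x - ξ n = (N - t0 n - c)/u`, so `|x - ξ n| ≤ (|N - X1| + t0 η M + |c|)/|u| ≤ 1.02 hw M` for large `M` if
`t0 η ≤ hw/1000` (choose `η = min(1, hw/(1000 (1 + t0 + t_i)))`, `t_i = F.t (some i)`). As `4 hw ≤ ξ ≤ 1 - 4 hw`: `0 < x < n`.
`F.L n (some i) x = u_i x + b_i n + c_i = t_i n + u_i (x - ξ n) + c_i`, so it differs from `t_i M` by at most
`t_i η M + |u_i| 1.02 hw M + |c_i| ≤ (1/1000 + 1.02/1000) t_i M + hw M/1000 + |c_i|`-type terms, `≤ t_i M/100` for large `M`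
(`1000 |u_i| hw ≤ t_i`, `|u_i| ≥ 1`, so `hw ≤ t_i/1000`). `tz = 1` on `[0.99, 1.01]`. -/
def S_wl : Prop := R_wl

/-- The mass and the Bombieri-Vinogradov theorem for the sequence `a1`. -/
def R_ab : Prop := ∀ (ι : Type) [Fintype ι] [DecidableEq ι] (D : ℕ) (F : Fam ι D) (b A : ℕ), ∀ᶠ M : ℕ in atTop,
  998 / 1000 * (F.hw * M * |(F.u none : ℝ)|) ≤ sT (a1 F M) (N1 F M) ∧
  sT (a1 F M) (N1 F M) ≤ 1002 / 1000 * (F.hw * M * |(F.u none : ℝ)|) ∧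
  ∀ c : ℕ → ℕ, (∀ q, (c q).Coprime ((F.u none).natAbs * q)) →
    ∑ q ∈ (Icc 1 ⌊(M : ℝ) ^ (2 / 5 : ℝ)⌋₊).filter Squarefree, (b : ℝ) ^ q.primeFactors.card *
      er (a1 F M) (N1 F M) ((F.u none).natAbs * q) (c q) ≤ M / (Real.log M) ^ A

/-- [GC ab] (uses CM M mu, m1, CM B) Proof: as `CM/P/mass.lean` (first part) and `CM/P/bvF.lean` with the centre
`X1 = F.t none * M` (in place of `t n + c`), `la = F.la none ≥ 1000` fixed: `mu la * X1` is between `X1/la = |u| hw M` and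
`(1 + la^(-2)) |u| hw M`, `R_m1` with `δ = mu la/10000`. `CM.B.R_B` with `lam = la`, class `CP` (`f = thP`), `W = |u|`, `ε = 1/20`,
`A + 1`: `M^(2/5) ≤ X1^(1/2 - 1/20)` for large `M`; the sum over fewer `q` is smaller (`er ≥ 0`); `X1/(log X1)^(A+1) ≤ M/(log M)^A`.
(`sT a N`, `er a N q b`: CM/Defs.lean; `a1 F M = fun N => thP N * wd la X1 N`.) -/
def S_ab : Prop := CM.M.R_mu → CM.M.R_m1 → CM.B.R_B → R_ab

/-- Existence of the parameters. -/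
def R_pm : Prop := ∀ (ε t : ℝ) (K0 : ℕ), 0 < ε → 0 < t → ∀ᶠ M : ℕ in atTop, ∃ w k : ℕ,
  Pm (t * M) ε K0 w k ∧ (w : ℝ) ^ k ≤ (M : ℝ) ^ ε ∧ (w : ℝ) ≤ (Real.log M) ^ (K0 + 1)

/-- [GC pm] Proof: `X = t M`, `L = log X`, `w = ⌈L^K0⌉₊`, `k = 2 ⌈K0 log L⌉₊`. `w ≤ L^K0 + 1 ≤ (log M)^(K0+1)`,
`(k + 1) log w ≤ (2 K0 log L + 3)(K0 + 1) log(2L) ≤ (ε/2) L ≤ min(ε log X, ε log M)` for large `M` (`log L` is small against `L`).
(`K0 = 0`: `w = 1`, `k = 0`, fine.) -/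
def S_pm : Prop := R_pm

/-! ### The lower bound for the model -/

/-- The lower bound for the sum with the model. -/
def R_md : Prop := ∀ (ι : Type) [Fintype ι] [DecidableEq ι] (D : ℕ) (F : Fam ι D) (i : ι) (B0 : ℕ),
  1 ≤ D → 1 ≤ B0 → ∀ η : ℝ, 0 < η → η ≤ 1 →
  (∀ᶠ M : ℕ in atTop, ∀ n ∈ Ioc M ⌊(1 + η) * M⌋₊, ∀ N ∈ Icc 1 (N1 F M),
    F.u none ∣ (N : ℤ) - F.v n none → a1 F M N ≠ 0 →
    N.Prime ∧ F.t none * M / 3 ≤ N ∧ 0 < F.L n (some i) (xx F n N) ∧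
    tz ((tt F i n N : ℝ) / (F.t (some i) * M)) = 1) →
  ∃ K0 : ℕ, ∀ᶠ M : ℕ in atTop, ∀ w k : ℕ,
  Pm (F.t (some i) * M) (1 / 100) K0 w k → (w : ℝ) ≤ (Real.log M) ^ (K0 + 1) →
  ∀ n' : ℕ, 2 * M ≤ z0 D n' ^ B0 → (lev (2 * D) n' : ℝ) ≤ (M : ℝ) ^ (1 / 60 : ℝ) →
  (2 : ℝ) ^ (2 * D + n') ≤ Real.log M → ∀ n ∈ Ioc M ⌊(1 + η) * M⌋₊,
  F.hw / (5 * (B0 : ℝ) ^ 2) * (M * (Real.log M) ^ 2 * F.V n n') ≤
    ∑ N ∈ Ns F M n, a1 F M N * (HH w k (tt F i n N) * tz ((tt F i n N : ℝ) / (F.t (some i) * M))) *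
      FK (2 * D) n' (qi F i n (xx F n N))

/-- [GC md] (uses e2, dn, cp, ab, M tl, CM W pr) Proof: `M` large, `n ≥ M ≥ F.N0`, `z = z0 D n'`, `z^B0 ≥ 2M`, so
`z ≥ M^(1/B0)` is larger than `w ≤ (log M)^(K0+1)` and `log z ≥ (log M)/B0`. `K0 = max(K0 of R_tl for c = 2, 2 (9 D + 10))`, where
`Pm X (1/100) .. ` implies `Pm X (1/50) ..`, `X = F.t (some i) M`. `R_e2` with `a = a1 F M`, `N = N1 F M`, `ε = e^(-k/2)` (`R_tl` with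
`c = 2`, `j = k`; `r2 ≤ 2/p`), `Y = ⌊M^(2/5)⌋₊` (`lev * w^k ≤ M^(1/60) X^(1/100) ≤ M^(2/5)`), `E q` = the maximum of
`er a N (|u| q) b` over the `b` coprime to `|u| q` (`exists_worst` in `BV/Classes.lean`, or `CM/P/app.lean`), `E 0 = 0`. The
conditions on `m`: if `a1 m ≠ 0` then `m` is a prime `≥ X1/3 > w`. `tz = 1` at these `N`. So the sum is at least
`(kapD w)⁻¹ (sT/φ) W(r2)(prs w) FK(r1) - err`, `FK (2D) n' (r1) ≥ (1/2) W(r1)(PK)` (`Dens.FK_lower` for the function of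
`R_dn`, which agrees with `r1` on the primes; `FK`, `W` on `PK` only depend on the values at the primes: `repB_FK`), and by
`R_cp`, `sT ≥ 0.998 hw M |u|`, `kapD z * log z ≤ 1` (`kapD_mul_log_le`): main `≥ (1/2)(0.998 hw M |u|) F.V/(2 |u| kapD z^2)
≥ 0.249 hw M (log M/B0)^2 F.V`. Hypotheses of `R_cp`: primes `> w` do not divide `u`, `u_i` (`w ≥ log X1 → ∞`); the
determinant `u v_i - u_i v` is nonzero (`F.hdet`) and at most `C M`, so it has at most `log(C M)/log w` prime divisors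
`> w`, and `∑ 1/p ≤ log(C M)/(w log w) ≤ 1/2` as `w ≥ (log X)^K0`, `K0 ≥ 2`. Errors: `(kapD w)⁻¹ ≤ 1000 log X` (`R_tl`), the
first is `≤ 1000 log X * M/(log M)^(A')` by `R_ab` with `b = 2D`, `A' = 8D + 3`; the second is
`≤ 1000 log X * 1.002 hw M |u| * C (log M)^D (log X)^(-K0/2)` (`∏_{PK} (1 + rhoW) ≤ ∏_{p ≤ z} (1 + D/(p-1)) ≤ C (log z)^D`,
`CM.W.R_pr`, `z ≤ lev ≤ M`; `e^(-k/2) ≤ (log X)^(-K0/2)`). `F.V n n' ≥ c1/(log M)^(8D)` (`W_ge` and `dens_poly`, see the end of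
`MT/Core.lean`: `F.V n n'` is `W` of the density of `F.G n`; `2^(2D+n') ≤ log M`), so the errors are
`≤ 0.04 hw M (log M/B0)^2 F.V` for large `M`. -/
def S_md : Prop := R_e2 → R_dn → R_cp → R_ab → M.R_tl → CM.W.R_pr → R_md

end Pool.Agent.GC.S
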